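import Mathlib

set_option autoImplicit false

/-!
# Extending embeddings of fields of finite transcendence degree
-/

namespace Pool.Agent.Y626.IA

open IntermediateField

/-- One more element. -/
theorem ext_one (K L : Type) [Field K] [Field L] [CharZero K] [CharZero L] [IsAlgClosed L]
    (hL : ¬ FinTrdeg ℚ L) (E : Type) [Field E] [CharZero E] [FinTrdeg ℚ E]
    (i : E →+* K) (j : E →+* L) (c : K) :
    ∃ (E' : Type) (_ : Field E') (_ : CharZero E') (_ : FinTrdeg ℚ E') (e : E →+* E')
      (i' : E' →+* K) (j' : E' →+* L), i'.comp e = i ∧ j'.comp e = j ∧ c ∈ Set.range i' := by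
  let _ : Algebra E K := i.toAlgebra
  let _ : Algebra E L := j.toAlgebra
  by_cases hc : IsAlgebraic E c
  · have halg : Algebra.IsAlgebraic E E⟮c⟯ := isAlgebraic_adjoin_simple hc.isIntegral
    have hcz : CharZero E⟮c⟯ := charZero_of_injective_algebraMap (algebraMap E E⟮c⟯).injective
    have hfin : FinTrdeg ℚ E⟮c⟯ := FinTrdeg.trans ℚ E E⟮c⟯
    let j' : E⟮c⟯ →ₐ[E] L := IsAlgClosed.lift
    refine ⟨E⟮c⟯, inferInstance, hcz, hfin, algebraMap E E⟮c⟯, algebraMap E⟮c⟯ K, j'.toRingHom,
      ?_, ?_, ?_⟩
    · ext x; rfl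
    · ext x
      exact j'.commutes x
    · exact ⟨⟨c, mem_adjoin_simple_self E c⟩, rfl⟩
  · have htr : Algebra.Transcendental E L := by
      by_contra hcon
      rw [Algebra.transcendental_iff_not_isAlgebraic, not_not] at hcon
      exact hL (FinTrdeg.trans ℚ E L)
    obtain ⟨d, hd⟩ := htr
    have hc' : Function.Injective (Polynomial.aeval (R := E) c) :=
      transcendental_iff_injective.1 hc
    have hd' : Function.Injective (Polynomial.aeval (R := E) d) :=
      transcendental_iff_injective.1 hd
    let i' : RatFunc E →+* K := IsFractionRing.lift (A := Polynomial E)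
      (g := (Polynomial.aeval (R := E) c).toRingHom) hc'
    let j' : RatFunc E →+* L := IsFractionRing.lift (A := Polynomial E)
      (g := (Polynomial.aeval (R := E) d).toRingHom) hd'
    have hcz : CharZero (RatFunc E) :=
      charZero_of_injective_algebraMap (algebraMap E (RatFunc E)).injective
    have hft : FinTrdeg E (RatFunc E) := by
      rw [finTrdeg_iff_trdeg, ← _root_.trdeg_add_eq E (Polynomial E) (A := RatFunc E)]
      have h1 : Algebra.trdeg (Polynomial E) (RatFunc E) = 0 := by
        have : Algebra.IsAlgebraic (Polynomial E) (RatFunc E) :=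
          IsLocalization.isAlgebraic _ (nonZeroDivisors (Polynomial E))
        exact trdeg_eq_zero
      rw [h1, Polynomial.trdeg_of_isDomain, add_zero]
      exact Cardinal.one_lt_aleph0
    have hfin : FinTrdeg ℚ (RatFunc E) := FinTrdeg.trans ℚ E (RatFunc E)
    refine ⟨RatFunc E, inferInstance, hcz, hfin, algebraMap E (RatFunc E), i', j', ?_, ?_, ?_⟩
    · ext x
      have h1 : i' (algebraMap (Polynomial E) (RatFunc E) (Polynomial.C x)) =
          Polynomial.aeval c (Polynomial.C x) := IsFractionRing.lift_algebraMap hc' _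
      rw [Polynomial.aeval_C] at h1
      exact h1
    · ext x
      have h1 : j' (algebraMap (Polynomial E) (RatFunc E) (Polynomial.C x)) =
          Polynomial.aeval d (Polynomial.C x) := IsFractionRing.lift_algebraMap hd' _
      rw [Polynomial.aeval_C] at h1
      exact h1
    · refine ⟨algebraMap (Polynomial E) (RatFunc E) Polynomial.X, ?_⟩
      have h1 : i' (algebraMap (Polynomial E) (RatFunc E) Polynomial.X) =
          Polynomial.aeval c Polynomial.X := IsFractionRing.lift_algebraMap hc' _
      rw [Polynomial.aeval_X] at h1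
      exact h1

/-- Finitely many more elements. -/
theorem ext_fin (K L : Type) [Field K] [Field L] [CharZero K] [CharZero L] [IsAlgClosed L]
    (hL : ¬ FinTrdeg ℚ L) (s : Set K) (hs : s.Finite) :
    ∀ (E : Type) [Field E] [CharZero E] [FinTrdeg ℚ E] (i : E →+* K) (j : E →+* L),
    ∃ (E' : Type) (_ : Field E') (_ : CharZero E') (_ : FinTrdeg ℚ E') (e : E →+* E')
      (i' : E' →+* K) (j' : E' →+* L), i'.comp e = i ∧ j'.comp e = j ∧ s ⊆ Set.range i' := by
  induction s, hs using Set.Finite.induction_on with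
  | empty =>
    intro E _ _ _ i j
    exact ⟨E, inferInstance, inferInstance, inferInstance, RingHom.id E, i, j, by simp, by simp,
      Set.empty_subset _⟩
  | @insert c s hcs hs ih =>
    intro E _ _ _ i j
    obtain ⟨E1, f1, c1, t1, e1, i1, j1, h1, h2, h3⟩ := ih E i j
    obtain ⟨E2, f2, c2, t2, e2, i2, j2, h4, h5, h6⟩ := ext_one K L hL E1 i1 j1 c
    refine ⟨E2, f2, c2, t2, e2.comp e1, i2, j2, ?_, ?_, ?_⟩
    · rw [← RingHom.comp_assoc, h4, h1]
    · rw [← RingHom.comp_assoc, h5, h2]
    · rw [Set.insert_subset_iff]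
      refine ⟨h6, h3.trans ?_⟩
      rw [← h4]
      rintro _ ⟨x, rfl⟩
      exact ⟨e2 x, rfl⟩

end Pool.Agent.Y626.IA
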