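import Mathlib
import Pool.Agent.Y626.IA.Ext
import Pool.Agent.Results.MP_c671ed_lc.NotAxiomatizable

set_option autoImplicit false

/-!
# Infinitary formulas, and the back-and-forth argument
-/

namespace Pool.Agent.Y626.IA

universe u

open FirstOrder MvPolynomial

open Pool.Agent.Results.MP_c671ed_lc.NotAxiomatizable (QRing mapQ rngLang Quat Rat IsSubdirectProduct
  IsSubdirectProductNonUnital exists_division_quotient rngToRing)

/-- The formulas of the infinitary logic `L_{∞ω}` with the free variables `0, ..., n-1`: atomic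
formulas, negations, conjunctions of arbitrary families of formulas, and universal quantification
over the variable `n`. -/
inductive InfFormula (L : FirstOrder.Language.{0, 0}) : ℕ → Type (u + 1)
  | equal {n : ℕ} (t s : L.Term (Fin n)) : InfFormula L n
  | rel {n l : ℕ} (R : L.Relations l) (ts : Fin l → L.Term (Fin n)) : InfFormula L n
  | neg {n : ℕ} (φ : InfFormula L n) : InfFormula L n
  | conj {n : ℕ} (ι : Type u) (φ : ι → InfFormula L n) : InfFormula L n
  | all {n : ℕ} (φ : InfFormula L (n + 1)) : InfFormula L n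

/-- Truth of a formula in a structure under an assignment. -/
def Holds {L : FirstOrder.Language.{0, 0}} (M : Type) [L.Structure M] :
    ∀ {n : ℕ}, InfFormula.{u} L n → (Fin n → M) → Prop
  | _, .equal t s, v => t.realize v = s.realize v
  | _, .rel R ts, v => Language.Structure.RelMap R (fun i => (ts i).realize v)
  | _, .neg φ, v => ¬ Holds M φ v
  | _, .conj _ φ, v => ∀ i, Holds M (φ i) v
  | _, .all φ, v => ∀ x : M, Holds M φ (Fin.snoc v x)

/-- Base change. -/
noncomputable def mapE {E K : Type} [Field E] [Field K] (i : E →+* K) : QRing E →+* QRing K :=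
  mapQ (MvPolynomial.map i) (map_X _ _) (map_X _ _)

theorem mapE_comp {E F K : Type} [Field E] [Field F] [Field K] (e : E →+* F) (i : F →+* K)
    (r : QRing E) : mapE i (mapE e r) = mapE (i.comp e) r := by
  ext1 <;> simp [mapE, mapQ, MvPolynomial.map_map]

theorem mapE_injective {E K : Type} [Field E] [Field K] (i : E →+* K) :
    Function.Injective (mapE i) := by
  intro p q h
  have hinj : Function.Injective (MvPolynomial.map (σ := ℕ) i) :=
    MvPolynomial.map_injective _ i.injective
  ext1
  · exact hinj (congrArg QuaternionAlgebra.re h)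
  · exact hinj (congrArg QuaternionAlgebra.imI h)
  · exact hinj (congrArg QuaternionAlgebra.imJ h)
  · exact hinj (congrArg QuaternionAlgebra.imK h)

/-- the coefficients of an element -/
noncomputable def cfs {K : Type} [Field K] (r : QRing K) : Set K :=
  ↑r.re.coeffs ∪ ↑r.imI.coeffs ∪ ↑r.imJ.coeffs ∪ ↑r.imK.coeffs

theorem cfs_finite {K : Type} [Field K] (r : QRing K) : (cfs r).Finite := by
  unfold cfs
  exact (((Finset.finite_toSet _).union (Finset.finite_toSet _)).union
    (Finset.finite_toSet _)).union (Finset.finite_toSet _)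

theorem mem_range_mapE {E K : Type} [Field E] [Field K] (i : E →+* K) (r : QRing K)
    (h : cfs r ⊆ Set.range i) : ∃ q, mapE i q = r := by
  unfold cfs at h
  simp only [Set.union_subset_iff] at h
  obtain ⟨⟨⟨h1, h2⟩, h3⟩, h4⟩ := h
  obtain ⟨a, ha⟩ := mem_range_map_iff_coeffs_subset.2 h1
  obtain ⟨b, hb⟩ := mem_range_map_iff_coeffs_subset.2 h2
  obtain ⟨c, hc⟩ := mem_range_map_iff_coeffs_subset.2 h3
  obtain ⟨d, hd⟩ := mem_range_map_iff_coeffs_subset.2 h4
  refine ⟨⟨a, b, c, d⟩, ?_⟩
  ext1
  · exact ha
  · exact hb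
  · exact hc
  · exact hd

/-- The back-and-forth system. -/
def Sim (K L : Type) [Field K] [Field L] {n : ℕ} (v : Fin n → QRing K) (w : Fin n → QRing L) :
    Prop :=
  ∃ (E : Type) (_ : Field E) (_ : CharZero E) (_ : FinTrdeg ℚ E) (i : E →+* K) (j : E →+* L)
    (r : Fin n → QRing E), (∀ m, v m = mapE i (r m)) ∧ ∀ m, w m = mapE j (r m)

theorem Sim.symm {K L : Type} [Field K] [Field L] {n : ℕ} {v : Fin n → QRing K}
    {w : Fin n → QRing L} (h : Sim K L v w) : Sim L K w v := by
  obtain ⟨E, f, c, t, i, j, r, h1, h2⟩ := h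
  exact ⟨E, f, c, t, j, i, r, h2, h1⟩

theorem Sim.forth {K L : Type} [Field K] [Field L] [CharZero K] [CharZero L] [IsAlgClosed L]
    (hL : ¬ FinTrdeg ℚ L) {n : ℕ} {v : Fin n → QRing K} {w : Fin n → QRing L}
    (h : Sim K L v w) (x : QRing K) : ∃ y : QRing L,
    Sim K L (Fin.snoc (α := fun _ => QRing K) v x) (Fin.snoc (α := fun _ => QRing L) w y) := by
  obtain ⟨E, f, c, t, i, j, r, h1, h2⟩ := h
  obtain ⟨E', f', c', t', e, i', j', hi, hj, hx⟩ := ext_fin K L hL (cfs x) (cfs_finite x) E i j
  obtain ⟨x0, rfl⟩ := mem_range_mapE i' x hx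
  refine ⟨mapE j' x0, E', f', c', t', i', j',
    Fin.snoc (α := fun _ => QRing E') (fun m => mapE e (r m)) x0, ?_, ?_⟩
  · intro m
    refine Fin.lastCases ?_ (fun m => ?_) m
    · rw [Fin.snoc_last, Fin.snoc_last]
    · rw [Fin.snoc_castSucc, Fin.snoc_castSucc, mapE_comp, hi, h1]
  · intro m
    refine Fin.lastCases ?_ (fun m => ?_) m
    · rw [Fin.snoc_last, Fin.snoc_last]
    · rw [Fin.snoc_castSucc, Fin.snoc_castSucc, mapE_comp, hj, h2]

section karp

variable (L : FirstOrder.Language.{0, 0}) [∀ (E : Type) [Field E], L.Structure (QRing E)]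

/-- Similar tuples satisfy the same infinitary formulas. -/
theorem karp (H : ∀ (E K : Type) [Field E] [Field K] (i : E →+* K),
      ∃ f : QRing E ↪[L] QRing K, ∀ r, f r = mapE i r)
    (K F : Type) [Field K] [Field F] [CharZero K] [CharZero F] [IsAlgClosed K] [IsAlgClosed F]
    (hK : ¬ FinTrdeg ℚ K) (hF : ¬ FinTrdeg ℚ F) : ∀ {n : ℕ} (φ : InfFormula.{u} L n)
    (v : Fin n → QRing K) (w : Fin n → QRing F), Sim K F v w → (Holds (QRing K) φ v ↔
      Holds (QRing F) φ w) := by
  intro n φ
  induction φ with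
  | equal t s =>
    rintro v w ⟨E, f, c, tt, i, j, r, h1, h2⟩
    obtain ⟨a, ha⟩ := H E K i
    obtain ⟨b, hb⟩ := H E F j
    have ev : v = a ∘ r := funext fun m => by rw [Function.comp, ha, h1]
    have ew : w = b ∘ r := funext fun m => by rw [Function.comp, hb, h2]
    simp only [Holds]
    rw [ev, ew, Language.HomClass.realize_term, Language.HomClass.realize_term,
      Language.HomClass.realize_term, Language.HomClass.realize_term,
      a.injective.eq_iff, b.injective.eq_iff]
  | rel R ts =>
    rintro v w ⟨E, f, c, tt, i, j, r, h1, h2⟩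
    obtain ⟨a, ha⟩ := H E K i
    obtain ⟨b, hb⟩ := H E F j
    have ev : v = a ∘ r := funext fun m => by rw [Function.comp, ha, h1]
    have ew : w = b ∘ r := funext fun m => by rw [Function.comp, hb, h2]
    simp only [Holds]
    rw [ev, ew]
    have e1 : (fun i => (ts i).realize (a ∘ r)) = a ∘ fun i => (ts i).realize r :=
      funext fun i => Language.HomClass.realize_term a
    have e2 : (fun i => (ts i).realize (b ∘ r)) = b ∘ fun i => (ts i).realize r :=
      funext fun i => Language.HomClass.realize_term b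
    rw [e1, e2, a.map_rel, b.map_rel]
  | neg φ ih =>
    intro v w h
    simp only [Holds]
    rw [ih v w h]
  | conj ι φ ih =>
    intro v w h
    simp only [Holds]
    exact forall_congr' fun i => ih i v w h
  | all φ ih =>
    intro v w h
    simp only [Holds]
    constructor
    · intro h1 y
      obtain ⟨x, hx⟩ := Sim.forth hK h.symm y
      exact (ih _ _ hx.symm).1 (h1 x)
    · intro h1 x
      obtain ⟨y, hy⟩ := Sim.forth hF h x
      exact (ih _ _ hy).2 (h1 y)

/-- The same infinitary sentences hold in the two rings. -/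
theorem karp_sentence (H : ∀ (E K : Type) [Field E] [Field K] (i : E →+* K),
      ∃ f : QRing E ↪[L] QRing K, ∀ r, f r = mapE i r)
    (K F : Type) [Field K] [Field F] [CharZero K] [CharZero F] [IsAlgClosed K] [IsAlgClosed F]
    (hK : ¬ FinTrdeg ℚ K) (hF : ¬ FinTrdeg ℚ F) (φ : InfFormula.{u} L 0)
    (v : Fin 0 → QRing K) (w : Fin 0 → QRing F) :
    Holds (QRing K) φ v ↔ Holds (QRing F) φ w := by
  refine karp L H K F hK hF φ v w ⟨ℚ, inferInstance, inferInstance, inferInstance,
    algebraMap ℚ K, algebraMap ℚ F, Fin.elim0, fun m => m.elim0, fun m => m.elim0⟩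

end karp

end Pool.Agent.Y626.IA
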