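import Mathlib
import Pool.Agent.Y626.IA.Inf

set_option autoImplicit false

/-!
# The two rings
-/

namespace Pool.Agent.Y626.IA

universe u

open FirstOrder MvPolynomial

open Pool.Agent.Results.MP_c671ed_lc.NotAxiomatizable (QRing mapQ rngLang Quat Rat IsSubdirectProduct
  IsSubdirectProductNonUnital exists_division_quotient rngToRing countable_rat
  not_isSubdirectProductNonUnital not_isSubdirectProduct isUnit_or_eq_zero_quat)

theorem not_finTrdeg (F : Type) [Field F] [CharZero F] (f : MvPolynomial ℕ ℚ →+* F)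
    (hf : Function.Injective f) : ¬ FinTrdeg ℚ F := by
  intro h
  have h1 : AlgebraicIndependent ℚ (fun n : ℕ => f (X n)) :=
    (MvPolynomial.algebraicIndependent_X ℕ ℚ).map' (f := f.toRatAlgHom) hf
  have h2 := finite_of_algebraicIndependent h1
  exact not_finite ℕ

theorem not_finTrdeg_complex : ¬ FinTrdeg ℚ ℂ := by
  intro h
  obtain ⟨s, hs⟩ := exists_finset_isTranscendenceBasis ℚ ℂ
  have h1 := IsAlgClosed.cardinal_le_max_transcendence_basis _ hs
  rw [Cardinal.lift_id] at h1
  have h2 : Cardinal.mk ℂ ≤ Cardinal.aleph0 := by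
    refine h1.trans ?_
    simp
  rw [Cardinal.mk_complex] at h2
  exact absurd h2 (not_le.2 Cardinal.aleph0_lt_continuum)

/-- A countable algebraically closed field of infinite transcendence degree. -/
abbrev Sm : Type := AlgebraicClosure (Rat ℚ)

instance : Countable (Rat ℚ) := countable_rat

instance : CharZero (Rat ℚ) :=
  charZero_of_injective_algebraMap (algebraMap ℚ (Rat ℚ)).injective

instance : Countable Sm := by
  rw [← Cardinal.mk_le_aleph0_iff]
  refine (Algebra.IsAlgebraic.cardinalMk_le_max (Rat ℚ) Sm).trans ?_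
  simp

theorem not_finTrdeg_Sm : ¬ FinTrdeg ℚ Sm :=
  not_finTrdeg Sm ((algebraMap (Rat ℚ) Sm).comp (algebraMap (MvPolynomial ℕ ℚ) (Rat ℚ)))
    ((algebraMap (Rat ℚ) Sm).injective.comp (IsFractionRing.injective _ _))

theorem countable_isSubdirectProduct (F : Type) [Field F] [Countable F] :
    IsSubdirectProduct (QRing F) := by
  have h : ∀ r : {r : QRing F // r ≠ 0}, ∃ f : QRing F →+* Quat F,
      Function.Surjective f ∧ f r.1 ≠ 0 := fun r => exists_division_quotient r.1 r.2
  choose f hf1 hf2 using h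
  refine ⟨_, fun _ => Quat F, fun _ => inferInstance, RingHom.pi f, ?_, hf1⟩
  rw [injective_iff_map_eq_zero]
  intro r hr
  by_contra hr0
  exact hf2 ⟨r, hr0⟩ (congrFun hr ⟨r, hr0⟩)

theorem countable_isSubdirectProductNonUnital (F : Type) [Field F] [Countable F] :
    IsSubdirectProductNonUnital (QRing F) := by
  obtain ⟨I, D, hD, φ, h1, h2⟩ := countable_isSubdirectProduct F
  exact ⟨I, D, hD, φ.toNonUnitalRingHom, h1, h2⟩

/-- The ring is embedded in a division ring. -/
theorem embeds (F : Type) [Field F] :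
    ∃ (D : Type) (_ : DivisionRing D) (f : QRing F →+* D), Function.Injective f := by
  refine ⟨Quat F, inferInstance, mapQ (algebraMap (MvPolynomial ℕ F) (Rat F)) rfl rfl, ?_⟩
  intro p q h
  have hinj : Function.Injective (algebraMap (MvPolynomial ℕ F) (Rat F)) :=
    IsFractionRing.injective _ _
  ext1
  · exact hinj (congrArg QuaternionAlgebra.re h)
  · exact hinj (congrArg QuaternionAlgebra.imI h)
  · exact hinj (congrArg QuaternionAlgebra.imJ h)
  · exact hinj (congrArg QuaternionAlgebra.imK h)

/-- A scalar is central. -/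
theorem central (F : Type) [Field F] (a : MvPolynomial ℕ F) :
    (⟨a, 0, 0, 0⟩ : QRing F) ∈ Subring.center (QRing F) := by
  rw [Subring.mem_center_iff]
  intro q
  ext <;> simp [mul_comm]

/-- The ring is a finitely generated module over its center. -/
theorem finite_center (F : Type) [Field F] :
    Module.Finite (Subring.center (QRing F)) (QRing F) := by
  classical
  refine ⟨⟨{1, ⟨0, 1, 0, 0⟩, ⟨0, 0, 1, 0⟩, ⟨0, 0, 0, 1⟩}, eq_top_iff.2 fun q _ => ?_⟩⟩
  have e : q = (⟨⟨q.re, 0, 0, 0⟩, central F _⟩ : Subring.center (QRing F)) • (1 : QRing F) +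
      (⟨⟨q.imI, 0, 0, 0⟩, central F _⟩ : Subring.center (QRing F)) • (⟨0, 1, 0, 0⟩ : QRing F) +
      (⟨⟨q.imJ, 0, 0, 0⟩, central F _⟩ : Subring.center (QRing F)) • (⟨0, 0, 1, 0⟩ : QRing F) +
      (⟨⟨q.imK, 0, 0, 0⟩, central F _⟩ : Subring.center (QRing F)) • (⟨0, 0, 0, 1⟩ : QRing F) := by
    simp only [Subring.smul_def, smul_eq_mul]
    ext <;> simp
  rw [e]
  refine add_mem (add_mem (add_mem ?_ ?_) ?_) ?_ <;>
    exact Submodule.smul_mem _ _ (Submodule.subset_span (by simp))

noncomputable instance compat (k : Type) [Field k] : FirstOrder.Ring.CompatibleRing (QRing k) :=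
  FirstOrder.Ring.compatibleRingOfRing _

theorem H_ring (E K : Type) [Field E] [Field K] (i : E →+* K) :
    ∃ f : QRing E ↪[Language.ring] QRing K, ∀ r, f r = mapE i r := by
  refine ⟨{ toFun := mapE i
            inj' := mapE_injective i
            map_fun' := ?_
            map_rel' := ?_ }, fun r => rfl⟩
  · intro n f x
    cases f <;> simp [FirstOrder.Language.Structure.funMap]
  · intro n r
    exact r.elim

theorem H_rng (E K : Type) [Field E] [Field K] (i : E →+* K) :
    ∃ f : QRing E ↪[rngLang] QRing K, ∀ r, f r = mapE i r := by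
  refine ⟨{ toFun := mapE i
            inj' := mapE_injective i
            map_fun' := ?_
            map_rel' := ?_ }, fun r => rfl⟩
  · intro n f x
    cases f <;> simp [FirstOrder.Language.Structure.funMap]
  · intro n r
    exact r.elim

theorem same_ring (φ : InfFormula.{u} Language.ring 0) (v : Fin 0 → QRing Sm)
    (w : Fin 0 → QRing ℂ) : Holds (QRing Sm) φ v ↔ Holds (QRing ℂ) φ w :=
  karp_sentence Language.ring H_ring Sm ℂ not_finTrdeg_Sm not_finTrdeg_complex φ v w

theorem same_rng (φ : InfFormula.{u} rngLang 0) (v : Fin 0 → QRing Sm)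
    (w : Fin 0 → QRing ℂ) : Holds (QRing Sm) φ v ↔ Holds (QRing ℂ) φ w :=
  karp_sentence rngLang H_rng Sm ℂ not_finTrdeg_Sm not_finTrdeg_complex φ v w

end Pool.Agent.Y626.IA
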