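import Mathlib
import Pool.Agent.Y626.IA.Fin

set_option autoImplicit false

/-!
# First-order sentences as infinitary sentences
-/

namespace Pool.Agent.Y626.IA

universe u

open FirstOrder

/-- the variables of a bounded formula without named free variables -/
def rl {L : FirstOrder.Language.{0, 0}} {n : ℕ} (t : L.Term (Empty ⊕ Fin n)) : L.Term (Fin n) :=
  t.relabel (Sum.elim Empty.elim id)

/-- A first-order formula as an infinitary formula. -/
def ofBF {L : FirstOrder.Language.{0, 0}} : ∀ {n : ℕ}, L.BoundedFormula Empty n → InfFormula.{u} L n
  | _, .falsum => .neg (.conj PEmpty (fun i => i.elim))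
  | _, .equal t s => .equal (rl t) (rl s)
  | _, .rel R ts => .rel R (fun i => rl (ts i))
  | _, .imp φ ψ => .neg (.conj (ULift Bool) (fun b => if b.down then ofBF φ else .neg (ofBF ψ)))
  | _, .all φ => .all (ofBF φ)

theorem realize_rl {L : FirstOrder.Language.{0, 0}} (M : Type) [L.Structure M] {n : ℕ}
    (t : L.Term (Empty ⊕ Fin n)) (d : Empty → M) (v : Fin n → M) :
    (rl t).realize v = t.realize (Sum.elim d v) := by
  unfold rl
  rw [Language.Term.realize_relabel]
  congr 1
  funext x
  rcases x with x | x
  · exact x.elim
  · rfl

theorem holds_ofBF {L : FirstOrder.Language.{0, 0}} (M : Type) [L.Structure M] {n : ℕ}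
    (φ : L.BoundedFormula Empty n) (d : Empty → M) :
    ∀ v : Fin n → M, Holds M (ofBF.{u} φ) v ↔ φ.Realize d v := by
  induction φ with
  | falsum =>
    intro v
    simp only [ofBF, Holds]
    constructor
    · intro h
      exact (h fun i => i.elim).elim
    · intro h
      exact h.elim
  | equal t s =>
    intro v
    simp only [ofBF, Holds, Language.BoundedFormula.Realize]
    rw [realize_rl M t d v, realize_rl M s d v]
  | rel R ts =>
    intro v
    simp only [ofBF, Holds, Language.BoundedFormula.Realize]
    have : (fun i => (rl (ts i)).realize v) = fun i => (ts i).realize (Sum.elim d v) :=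
      funext fun i => realize_rl M (ts i) d v
    rw [this]
  | imp φ ψ ih1 ih2 =>
    intro v
    simp only [ofBF, Holds, Language.BoundedFormula.Realize]
    constructor
    · intro h h1
      by_contra h2
      apply h
      rintro ⟨b⟩
      cases b
      · simpa [Holds, ih2 v] using h2
      · simpa [ih1 v] using h1
    · intro h h1
      have h2 := h1 ⟨true⟩
      have h3 := h1 ⟨false⟩
      simp only [if_true, Bool.false_eq_true, if_false, Holds] at h2 h3
      exact h3 ((ih2 v).2 (h ((ih1 v).1 h2)))
  | all φ ih =>
    intro v
    simp only [ofBF, Holds, Language.BoundedFormula.Realize]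
    exact forall_congr' fun x => ih _

theorem holds_sentence {L : FirstOrder.Language.{0, 0}} (M : Type) [L.Structure M]
    (φ : L.Sentence) : Holds M (ofBF.{u} φ) Fin.elim0 ↔ M ⊨ φ := by
  rw [holds_ofBF M φ default]
  unfold Language.Sentence.Realize Language.Formula.Realize
  rw [show (Fin.elim0 : Fin 0 → M) = default from Subsingleton.elim _ _]

end Pool.Agent.Y626.IA
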